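import Pool.Agent.J6H44.MD.Main

/-!
# The dimension conjecture fails by an arbitrarily large amount

For every `N` there are a totally real field `F` of degree `2^(N+1)`, a finite set `S` of places of
`F`, a finite field `k` of characteristic 2 and a continuous absolutely irreducible
`ρ : G_{F,S} → GL_3(k)` such that for **every** finite `S' ⊇ S` the inflation of `ρ` to `G_{F,S'}`
satisfies `δ = 1`, its universal deformation ring exists, and `dim R/2R ≥ 4[F:ℚ] + 1` for every
universal deformation ring `R`.  So the difference between the dimension and `δ` is at least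
`4[F:ℚ] = 2^(N+3)`; it is unbounded, although `δ = 1` and `n = 3` are fixed.

The earlier results of this problem give `dim R/2R ≥ 2` for one field, `F = ℚ(√5)` (here the bound is
`9` for `N = 0`).

New ingredients: (1) `Tower`: in a free pro-2 product of groups of order two and of `ℤ₂`, the open
subgroups of the `ℤ₂`-tower are again such free products (wreath products); (2) `Level`: the levels of
the tower over `ℚ(√5)` are totally real fields; (3) `Lim`, `Ext`, `Fam`: deformations to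
`k⟦x_1, …, x_r⟧`, `r = 4[F:ℚ] + 1`, in which every real place of `F` contributes a generic involution
`1 + N`, `N² = 0` (four parameters), and twisting contributes one more; (4) `Dim`: a chain of primes.
-/

set_option autoImplicit false

namespace Pool.Agent.Results.MP_aa8fd2_nt.UnboundedFailure

open NumberField IsDedekindDomain

/-- `ρ'` is the inflation of the representation `ρ` of `G_{F,S}` to `G_{F,S'}`, i.e. the composition
of `ρ` with the restriction map `π : G_{F,S'} → G_{F,S}` -/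
def IsInflation {F Ω : Type} [Field F] [NumberField F] [Field Ω] [Algebra F Ω]
    {S S' : Set (HeightOneSpectrum (𝓞 F))} {k : Type} [Field k] {n : ℕ}
    (ρ : MZ.GFS Ω S →* GL (Fin n) k) (ρ' : MZ.GFS Ω S' →* GL (Fin n) k) : Prop :=
  ∃ π : MZ.GFS Ω S' →* MZ.GFS Ω S, Function.Surjective π ∧
    (∀ (g : MZ.GFS Ω S') (x : (MZ.FSmax S : IntermediateField F Ω))
      (y : (MZ.FSmax S' : IntermediateField F Ω)), (x : Ω) = y → (π g x : Ω) = g y) ∧
    ρ' = ρ.comp π

/-- The data are as in the problem, with `p = 2` and `n = 3`; `δ = 1`; a universal deformation ring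
exists, and every universal deformation ring `R` has `dim R/2R ≥ 4[F:ℚ] + 1`. -/
def LargeCounter (F Ω : Type) [Field F] [NumberField F] [Field Ω] [Algebra F Ω]
    (S : Set (HeightOneSpectrum (𝓞 F))) (k : Type) [Field k] [CharP k 2]
    (ρ : MZ.GFS Ω S →* GL (Fin 3) k)
    (w : InfinitePlace F → InfinitePlace (MZ.FSmax S : IntermediateField F Ω)) : Prop :=
  MZ.IsDatum F Ω S 2 k 3 ρ w ∧ MZ.delta S ρ w = 1 ∧
  (∃ (R : MZ.CNL 2 k) (ρu : MZ.GFS Ω S →* GL (Fin 3) R.A), MZ.IsUniversal ρ R ρu) ∧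
  ∀ (R : MZ.CNL 2 k) (ρu : MZ.GFS Ω S →* GL (Fin 3) R.A), MZ.IsUniversal ρ R ρu →
    ((4 * Module.finrank ℚ F + 1 : ℕ) : WithBot ℕ∞) ≤
      ringKrullDim (R.A ⧸ Ideal.span {((2 : ℕ) : R.A)})

/-- **The dimension conjecture fails by an arbitrarily large amount.** -/
theorem result : ∀ N : ℕ,
    ∃ (F Ω : Type) (_ : Field F) (_ : NumberField F) (_ : Field Ω) (_ : Algebra F Ω)
      (_ : IsAlgClosure F Ω) (S : Set (HeightOneSpectrum (𝓞 F)))
      (k : Type) (_ : Field k) (_ : Finite k) (_ : CharP k 2)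
      (ρ : MZ.GFS Ω S →* GL (Fin 3) k),
      (∀ φ : F →+* ℂ, ComplexEmbedding.IsReal φ) ∧ Module.finrank ℚ F = 2 ^ (N + 1) ∧ S.Finite ∧
      ∀ S' : Set (HeightOneSpectrum (𝓞 F)), S'.Finite → S ⊆ S' →
        ∃ (ρ' : MZ.GFS Ω S' →* GL (Fin 3) k)
          (w' : InfinitePlace F → InfinitePlace (MZ.FSmax S' : IntermediateField F Ω)),
          IsInflation ρ ρ' ∧ LargeCounter F Ω S' k ρ' w' := by
  intro N
  obtain ⟨F, Ω, iF, iN, iΩ, iA, iC, S, k, ik, iFin, iP, ρbar, w, hreal, hdeg, hD, hδ, ⟨R, ρu, hu⟩,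
    hR⟩ := Pool.Agent.J6H44.MD.main N
  refine ⟨F, Ω, iF, iN, iΩ, iA, iC, S, k, ik, iFin, iP, ρbar, hreal, hdeg, hD.2.2.1,
    fun S' hS' h => ?_⟩
  obtain ⟨hn, hcop, hSf, hS2, hop, hirr, hw⟩ := hD
  have : IsGalois F (MZ.FSmax S : IntermediateField F Ω) := Pool.Agent.W178.MZK.K7 F Ω S
  have : IsGalois F (MZ.FSmax S' : IntermediateField F Ω) := Pool.Agent.W178.MZK.K7 F Ω S'
  obtain ⟨π, hs, hq, hcm, W, hW⟩ :=
    Pool.Agent.Y808.MZD.exists_res' (F := F) (Ω := Ω) (Pool.Agent.Y808.MZD.FSmax_mono (Ω := Ω) h)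
  have hopen : IsOpen ((ρbar.comp π).ker : Set (MZ.GFS Ω S')) := hop.preimage hq.continuous
  have hirr' : MZ.AbsIrred (ρbar.comp π) := by
    intro V hV
    refine hirr V fun g x hx => ?_
    obtain ⟨g', rfl⟩ := hs g
    exact hV g' x hx
  have hS2' : ∀ v : HeightOneSpectrum (𝓞 F), ((2 : ℕ) : 𝓞 F) ∈ v.asIdeal → v ∈ S' :=
    fun v hv => h (hS2 v hv)
  refine ⟨ρbar.comp π, fun v => W (w v), ⟨π, hs, hcm, rfl⟩,
    ⟨hn, hcop, hS', hS2', hopen, hirr', fun v => (hW (w v)).1.trans (hw v)⟩, ?_, ?_, ?_⟩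
  · rw [← hδ]
    exact Pool.Agent.Y808.MZD.delta_eq ρbar w π _ fun v => (hW (w v)).2
  · exact MZEX.stmEx F Ω S' hS' (fun v hv => hS2' v (by exact_mod_cast hv)) k 3 hn _ hopen hirr'
  · intro R' ρu' hu'
    exact (hR R ρu hu).trans (Pool.Agent.Y808.MZD.dim_mono π hs hq ρbar R ρu hu R' ρu' hu')

end Pool.Agent.Results.MP_aa8fd2_nt.UnboundedFailure
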